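import Mathlib

/-!
# A nonreflexive locally uniformly convex space and a hyperplane without nearest points

The space is `ℓ¹` with the norm `(‖x‖₁ ^ 2 + ‖x‖₂ ^ 2) ^ (1/2)`, realised as the diagonal of `ℓ¹ × ℓ²`.
-/

set_option autoImplicit false

namespace Pool.Agent.L7h17.Luc

open Filter Topology

noncomputable section

abbrev L1 := lp (fun _ : ℕ => ℝ) 1
abbrev L2 := lp (fun _ : ℕ => ℝ) 2
abbrev W := WithLp 2 (L1 × L2)

/-- the diagonal of `ℓ¹ × ℓ²` -/
def S : Submodule ℝ W where
  carrier := {p | ∀ n, p.fst n = p.snd n}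
  add_mem' := by
    intro a b ha hb n
    have h1 := ha n
    have h2 := hb n
    simp only [WithLp.add_fst, WithLp.add_snd, lp.coeFn_add, Pi.add_apply]
    rw [h1, h2]
  zero_mem' := by
    intro n
    simp
  smul_mem' := by
    intro c a ha n
    have h1 := ha n
    simp only [WithLp.smul_fst, WithLp.smul_snd, lp.coeFn_smul, Pi.smul_apply]
    rw [h1]

lemma abs_le_norm1 (x : L1) (n : ℕ) : |x n| ≤ ‖x‖ := by
  have := lp.norm_apply_le_norm (E := fun _ : ℕ => ℝ) (p := 1) one_ne_zero x n
  simpa using this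

lemma abs_le_norm2 (x : L2) (n : ℕ) : |x n| ≤ ‖x‖ := by
  have := lp.norm_apply_le_norm (E := fun _ : ℕ => ℝ) (p := 2) two_ne_zero x n
  simpa using this

lemma continuous_eval1 (n : ℕ) : Continuous (fun x : L1 => x n) := by
  have : LipschitzWith 1 (fun x : L1 => x n) := by
    apply LipschitzWith.of_dist_le_mul
    intro x y
    rw [dist_eq_norm, dist_eq_norm, Real.norm_eq_abs]
    have := abs_le_norm1 (x - y) n
    simpa using this
  exact this.continuous

lemma continuous_eval2 (n : ℕ) : Continuous (fun x : L2 => x n) := by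
  have : LipschitzWith 1 (fun x : L2 => x n) := by
    apply LipschitzWith.of_dist_le_mul
    intro x y
    rw [dist_eq_norm, dist_eq_norm, Real.norm_eq_abs]
    have := abs_le_norm2 (x - y) n
    simpa using this
  exact this.continuous

lemma isClosed_S : IsClosed (S : Set W) := by
  have : (S : Set W) = ⋂ n : ℕ, {p : W | p.fst n = p.snd n} := by
    ext p
    simp only [Set.mem_iInter, Set.mem_ofPred_eq]
    exact Iff.rfl
  rw [this]
  refine isClosed_iInter fun n => ?_
  refine isClosed_eq ?_ ?_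
  · exact (continuous_eval1 n).comp (WithLp.continuous_fst 2 _ _)
  · exact (continuous_eval2 n).comp (WithLp.continuous_snd 2 _ _)

instance : CompleteSpace S := isClosed_S.completeSpace_coe

lemma hasSum1 (x : L1) : HasSum (fun n => |x n|) ‖x‖ := by
  have := lp.hasSum_norm (E := fun _ : ℕ => ℝ) (p := 1) (by simp) x
  simpa using this

/-- the norm of `S` -/
lemma normS (x : S) : ‖x‖ ^ 2 = ‖(x : W).fst‖ ^ 2 + ‖(x : W).snd‖ ^ 2 := by
  have := WithLp.prod_norm_sq_eq_of_L2 (x : W)
  simpa using this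

lemma norm_le_add (x : S) : ‖x‖ ≤ ‖(x : W).fst‖ + ‖(x : W).snd‖ := by
  have h := normS x
  have h1 := norm_nonneg ((x : W).fst)
  have h2 := norm_nonneg ((x : W).snd)
  have h3 := norm_nonneg x
  nlinarith

lemma fst_le (x : S) : ‖(x : W).fst‖ ≤ ‖x‖ := by
  have h := normS x
  have h1 := norm_nonneg ((x : W).fst)
  have h2 := norm_nonneg ((x : W).snd)
  have h3 := norm_nonneg x
  nlinarith

set_option maxHeartbeats 4000000 in
theorem luc (x : S) (hx : ‖x‖ = 1) (ε : ℝ) (hε : 0 < ε) : ∃ δ : ℝ, 0 < δ ∧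
    ∀ y : S, ‖y‖ = 1 → ε ≤ ‖x - y‖ → ‖x + y‖ ≤ 2 - 2 * δ := by
  have hsum := hasSum1 (x : W).fst
  -- choose the number of coordinates
  have htail := hsum.tendsto_sum_nat
  obtain ⟨N, hN⟩ := (htail.eventually (eventually_gt_nhds
    (show ‖(x : W).fst‖ - ε / 8 < ‖(x : W).fst‖ by linarith))).exists
  set τ : ℝ := ε / (4 * (N + 1)) with hτ
  have hN0 : (0 : ℝ) ≤ N := Nat.cast_nonneg N
  have hτ0 : 0 < τ := by positivity
  have hτN : (2 * N + 2) * τ = ε / 2 := by
    rw [hτ]; field_simp; ring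
  refine ⟨min (τ ^ 2 / 8) 1, lt_min (by positivity) one_pos, ?_⟩
  intro y hy hxy
  set δ := min (τ ^ 2 / 8) 1 with hδ
  have hδ1 : δ ≤ τ ^ 2 / 8 := min_le_left _ _
  have hδ2 : δ ≤ 1 := min_le_right _ _
  have hδ0 : 0 < δ := lt_min (by positivity) one_pos
  by_contra hcon
  push Not at hcon
  set A := ‖(x : W).fst‖ with hA
  set B := ‖(y : W).fst‖ with hB
  have hxn := normS x
  have hyn := normS y
  have hsn := normS (x + y)
  have hdn := normS (x - y)
  have e1 : ((x + y : S) : W).fst = (x : W).fst + (y : W).fst := by simp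
  have e2 : ((x + y : S) : W).snd = (x : W).snd + (y : W).snd := by simp
  have e3 : ((x - y : S) : W).fst = (x : W).fst - (y : W).fst := by simp
  have e4 : ((x - y : S) : W).snd = (x : W).snd - (y : W).snd := by simp
  rw [e1, e2] at hsn
  rw [e3, e4] at hdn
  have hpar := parallelogram_law_with_norm ℝ (x : W).snd (y : W).snd
  have htri : ‖(x : W).fst + (y : W).fst‖ ≤ A + B := norm_add_le _ _
  have hA0 : 0 ≤ A := norm_nonneg _
  have hB0 : 0 ≤ B := norm_nonneg _
  have hs0 : 0 ≤ ‖(x : W).fst + (y : W).fst‖ := norm_nonneg _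
  have hkey : (A - B) ^ 2 + ‖(x : W).snd - (y : W).snd‖ ^ 2 ≤ τ ^ 2 := by
    have h1 : (2 - 2 * δ) ^ 2 < ‖x + y‖ ^ 2 := by
      apply pow_lt_pow_left₀ hcon (by linarith) (by norm_num)
    rw [hx] at hxn
    rw [hy] at hyn
    nlinarith
  have hAB : |A - B| ≤ τ := abs_le_of_sq_le_sq (by nlinarith [sq_nonneg ‖(x : W).snd - (y : W).snd‖]) hτ0.le
  have hD : ‖(x : W).snd - (y : W).snd‖ ≤ τ := by
    apply abs_le_of_sq_le_sq' _ hτ0.le |>.2
    nlinarith [sq_nonneg (A - B)]
  have hcoord : ∀ n, |(x : W).fst n - (y : W).fst n| ≤ τ := by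
    intro n
    have hxn' : (x : W).fst n = (x : W).snd n := x.2 n
    have hyn' : (y : W).fst n = (y : W).snd n := y.2 n
    rw [hxn', hyn']
    have := abs_le_norm2 ((x : W).snd - (y : W).snd) n
    simp only [lp.coeFn_sub, Pi.sub_apply] at this
    linarith
  have hF : ∑ n ∈ Finset.range N, |(x : W).fst n - (y : W).fst n| ≤ N * τ := by
    calc _ ≤ ∑ n ∈ Finset.range N, τ := Finset.sum_le_sum fun n _ => hcoord n
      _ = N * τ := by simp
  -- the tails
  have hy1 := hasSum1 (y : W).fst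
  have hz1 := hasSum1 ((x : W).fst - (y : W).fst)
  have tx := (hasSum_nat_add_iff' (f := fun n => |(x : W).fst n|) N).2 hsum
  have ty := (hasSum_nat_add_iff' (f := fun n => |(y : W).fst n|) N).2 hy1
  have tz := (hasSum_nat_add_iff' (f := fun n => |((x : W).fst - (y : W).fst) n|) N).2 hz1
  have hle : ‖(x : W).fst - (y : W).fst‖ - ∑ n ∈ Finset.range N, |((x : W).fst - (y : W).fst) n|
      ≤ (A - ∑ n ∈ Finset.range N, |(x : W).fst n|) + (B - ∑ n ∈ Finset.range N, |(y : W).fst n|) := by
    refine hasSum_le (fun n => ?_) tz (tx.add ty)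
    simp only [lp.coeFn_sub, Pi.sub_apply]
    exact abs_sub _ _
  have hle2 : ∑ n ∈ Finset.range N, |(x : W).fst n| ≤ ∑ n ∈ Finset.range N, |(y : W).fst n| + N * τ := by
    have : ∑ n ∈ Finset.range N, |(x : W).fst n| ≤ ∑ n ∈ Finset.range N, (|(y : W).fst n| + τ) := by
      apply Finset.sum_le_sum
      intro n _
      have h1 := hcoord n
      have h2 := abs_sub_abs_le_abs_sub ((x : W).fst n) ((y : W).fst n)
      linarith
    rw [Finset.sum_add_distrib] at this
    simpa using this
  have hF' : ∑ n ∈ Finset.range N, |((x : W).fst - (y : W).fst) n| ≤ N * τ := by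
    simpa only [lp.coeFn_sub, Pi.sub_apply] using hF
  have hBA : B ≤ A + τ := by
    have := (abs_le.1 hAB).1
    linarith
  have hd1 : ‖(x : W).fst - (y : W).fst‖ ≤ ε / 4 + (2 * N + 1) * τ := by
    linarith
  have hfin : ‖x - y‖ ≤ ε / 4 + (2 * N + 1) * τ + τ := by
    have h := norm_le_add (x - y)
    rw [e3, e4] at h
    linarith
  linarith

/-- the weights -/
def c (n : ℕ) : ℝ := (n + 1) / (n + 2)

lemma c_pos (n : ℕ) : 0 < c n := by unfold c; positivity

lemma c_lt (n : ℕ) : c n < 1 := by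
  unfold c
  rw [div_lt_one (by positivity)]
  linarith

lemma c_mono {m n : ℕ} (h : m ≤ n) : c m ≤ c n := by
  unfold c
  rw [div_le_div_iff₀ (by positivity) (by positivity)]
  have : (m : ℝ) ≤ n := by exact_mod_cast h
  nlinarith

lemma summable1 (x : S) : Summable (fun n => |(x : W).fst n|) := (hasSum1 (x : W).fst).summable

lemma summable_c (x : S) : Summable (fun n => c n * (x : W).fst n) := by
  apply Summable.of_norm_bounded (summable1 x)
  intro n
  rw [Real.norm_eq_abs, abs_mul, abs_of_pos (c_pos n)]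
  have := c_lt n
  have h2 := abs_nonneg ((x : W).fst n)
  nlinarith

lemma abs_f_le (x : S) : |∑' n, c n * (x : W).fst n| ≤ ∑' n, c n * |(x : W).fst n| := by
  have h := norm_tsum_le_tsum_norm (f := fun n => c n * (x : W).fst n) (by
    have := (summable_c x).norm
    exact this)
  calc |∑' n, c n * (x : W).fst n| ≤ ∑' n, ‖c n * (x : W).fst n‖ := h
    _ = ∑' n, c n * |(x : W).fst n| := by
      congr 1
      funext n
      rw [Real.norm_eq_abs, abs_mul, abs_of_pos (c_pos n)]

lemma f_lt {x : S} (hx : x ≠ 0) : |∑' n, c n * (x : W).fst n| < ‖x‖ := by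
  refine lt_of_le_of_lt (abs_f_le x) (lt_of_lt_of_le ?_ (fst_le x))
  have hs := hasSum1 (x : W).fst
  rw [← hs.tsum_eq]
  obtain ⟨k, hk⟩ : ∃ k, (x : W).fst k ≠ 0 := by
    by_contra hcon
    push Not at hcon
    apply hx
    apply Subtype.ext
    have h1 : (x : W).fst = 0 := by
      ext n
      simpa using hcon n
    have h2 : (x : W).snd = 0 := by
      ext n
      have := x.2 n
      rw [hcon n] at this
      simpa using this.symm
    have h3 := WithLp.prod_norm_sq_eq_of_L2 (x : W)
    rw [h1, h2] at h3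
    simp at h3
    simpa using h3
  have hsc : Summable (fun n => c n * |(x : W).fst n|) := by
    have := (summable_c x).norm
    refine this.congr ?_
    intro n
    rw [Real.norm_eq_abs, abs_mul, abs_of_pos (c_pos n)]
  refine Summable.tsum_lt_tsum (i := k) ?_ ?_ hsc hs.summable
  · intro n
    have := c_lt n
    have h2 := abs_nonneg ((x : W).fst n)
    nlinarith
  · have := c_lt k
    have h2 := abs_pos.2 hk
    nlinarith

/-- the functional -/
def f : S →L[ℝ] ℝ :=
  LinearMap.mkContinuous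
    { toFun := fun x => ∑' n, c n * (x : W).fst n
      map_add' := by
        intro x y
        rw [← (summable_c x).tsum_add (summable_c y)]
        congr 1
        funext n
        simp [mul_add]
      map_smul' := by
        intro r x
        simp only [RingHom.id_apply, smul_eq_mul]
        rw [← tsum_mul_left]
        congr 1
        funext n
        simp only [Submodule.coe_smul, WithLp.smul_fst, lp.coeFn_smul, Pi.smul_apply, smul_eq_mul]
        ring } 1 (by
    intro x
    rw [one_mul]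
    by_cases hx : x = 0
    · subst hx
      simp
    · exact (f_lt hx).le)

lemma f_apply (x : S) : f x = ∑' n, c n * (x : W).fst n := rfl

lemma sum_single1 (s : Finset ℕ) (n : ℕ) :
    (∑ i ∈ s, lp.single 1 i (1 : ℝ) : L1) n = if n ∈ s then 1 else 0 := by
  rw [lp.coeFn_sum, Finset.sum_apply]
  simp only [lp.coeFn_single, Pi.single_apply]
  simp

lemma sum_single2 (s : Finset ℕ) (n : ℕ) :
    (∑ i ∈ s, lp.single 2 i (1 : ℝ) : L2) n = if n ∈ s then 1 else 0 := by
  rw [lp.coeFn_sum, Finset.sum_apply]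
  simp only [lp.coeFn_single, Pi.single_apply]
  simp

/-- the vectors on which the functional is almost attained -/
def u (m : ℕ) : S :=
  ⟨WithLp.toLp 2 (∑ i ∈ Finset.Ico m (2 * m), lp.single 1 i (1 : ℝ),
    ∑ i ∈ Finset.Ico m (2 * m), lp.single 2 i (1 : ℝ)), by
    intro n
    exact (sum_single1 _ n).trans (sum_single2 _ n).symm⟩

lemma u_fst (m : ℕ) : ((u m : S) : W).fst = ∑ i ∈ Finset.Ico m (2 * m), lp.single 1 i (1 : ℝ) := rfl
lemma u_snd (m : ℕ) : ((u m : S) : W).snd = ∑ i ∈ Finset.Ico m (2 * m), lp.single 2 i (1 : ℝ) := rfl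

lemma norm_u (m : ℕ) : ‖u m‖ ^ 2 = m ^ 2 + m := by
  rw [normS]
  have h1 := lp.norm_sum_single (E := fun _ : ℕ => ℝ) (p := 1) (by simp) (fun _ => (1 : ℝ)) (Finset.Ico m (2 * m))
  have h2 := lp.norm_sum_single (E := fun _ : ℕ => ℝ) (p := 2) (by simp) (fun _ => (1 : ℝ)) (Finset.Ico m (2 * m))
  have hc : 2 * m - m = m := by omega
  simp [hc] at h1 h2
  rw [u_fst, u_snd, h1, h2]

lemma f_u (m : ℕ) : c m * m ≤ f (u m) := by
  rw [f_apply]
  have hfin : ∀ n, n ∉ Finset.Ico m (2 * m) → c n * ((u m : S) : W).fst n = 0 := by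
    intro n hn
    rw [u_fst, sum_single1, if_neg hn, mul_zero]
  rw [tsum_eq_sum hfin]
  have hval : ∀ n ∈ Finset.Ico m (2 * m), ((u m : S) : W).fst n = 1 := by
    intro n hn
    rw [u_fst, sum_single1, if_pos hn]
  have hc : (Finset.Ico m (2 * m)).card = m := by simp; omega
  calc c m * m = ∑ n ∈ Finset.Ico m (2 * m), c m := by
        rw [Finset.sum_const, hc, nsmul_eq_mul, mul_comm]
    _ ≤ ∑ n ∈ Finset.Ico m (2 * m), c n * ((u m : S) : W).fst n := by
        apply Finset.sum_le_sum
        intro n hn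
        rw [hval n hn, mul_one]
        exact c_mono (Finset.mem_Ico.1 hn).1

/-- the functional almost attains its norm one -/
lemma exists_almost (θ : ℝ) (hθ : θ < 1) (hθ0 : 0 ≤ θ) : ∃ v : S, 0 < f v ∧ θ * ‖v‖ < f v := by
  -- the quotient tends to one
  obtain ⟨m, hm⟩ := exists_nat_gt (4 / (1 - θ))
  have h1θ : 0 < 1 - θ := by linarith
  have hm0 : (0 : ℝ) < m := lt_trans (by positivity) hm
  have hmθ : 4 < m * (1 - θ) := by
    rwa [div_lt_iff₀ h1θ] at hm
  have hfu := f_u m
  have hnu := norm_u m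
  have hcm : c m = (m + 1) / (m + 2) := rfl
  have hpos : 0 < f (u m) := lt_of_lt_of_le (by have := c_pos m; positivity) hfu
  refine ⟨u m, hpos, ?_⟩
  have hn : ‖u m‖ ≤ m + 1 := by
    have := norm_nonneg (u m)
    nlinarith
  refine lt_of_lt_of_le ?_ hfu
  refine lt_of_le_of_lt (mul_le_mul_of_nonneg_left hn hθ0) ?_
  rw [hcm, div_mul_eq_mul_div, lt_div_iff₀ (by positivity)]
  nlinarith

/-- the kernel of the functional -/
def K : Set S := {x | f x = 0}

lemma mem_K (x : S) : x ∈ K ↔ f x = 0 := Iff.rfl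

lemma K_eq : K = (LinearMap.ker (f : S →ₗ[ℝ] ℝ) : Set S) := by
  ext x
  simp [K]

/-- the points with a nearest point in the kernel are in the kernel -/
lemma mem_ker_of_nearest {x y : S} (hy : y ∈ K)
    (h : dist x y = Metric.infDist x K) : x ∈ K := by
  by_contra hx
  have hfx : f x ≠ 0 := fun h0 => hx h0
  have hfy : f y = 0 := hy
  set z := x - y with hz
  have hfz : f z = f x := by rw [hz, map_sub, hfy, sub_zero]
  have hz0 : z ≠ 0 := by
    rintro h0
    rw [h0, map_zero] at hfz
    exact hfx hfz.symm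
  have hlt : |f z| < ‖z‖ := f_lt hz0
  have hzn : 0 < ‖z‖ := norm_pos_iff.2 hz0
  obtain ⟨v, hv0, hv⟩ := exists_almost (|f z| / ‖z‖) (by rwa [div_lt_one hzn]) (by positivity)
  set w := (f x / f v) • v with hw
  have hfw : f w = f x := by
    rw [hw, map_smul, smul_eq_mul, div_mul_cancel₀ _ hv0.ne']
  have hwn : ‖w‖ < ‖z‖ := by
    rw [hw, norm_smul, norm_div, Real.norm_eq_abs, Real.norm_eq_abs, abs_of_pos hv0, ← hfz]
    have hv' : |f z| * ‖v‖ < f v * ‖z‖ := by
      rw [div_mul_eq_mul_div, div_lt_iff₀ hzn] at hv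
      exact hv
    rw [div_mul_eq_mul_div, div_lt_iff₀ hv0]
    linarith
  have hmem : x - w ∈ K := by
    rw [mem_K, map_sub, hfw, sub_self]
  have h1 := Metric.infDist_le_dist_of_mem (x := x) hmem
  rw [← h, dist_eq_norm, dist_eq_norm, sub_sub_cancel] at h1
  linarith

lemma isMeagre_ker : IsMeagre K := by
  have hcl : IsClosed K := by
    rw [K_eq]
    exact f.isClosed_ker
  have hint : interior K = ∅ := by
    by_contra hne
    have hne' : (interior K).Nonempty :=
      Set.nonempty_iff_ne_empty.2 hne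
    rw [K_eq] at hne'
    have := Submodule.eq_top_of_nonempty_interior' (LinearMap.ker (f : S →ₗ[ℝ] ℝ)) hne'
    obtain ⟨v, hv0, -⟩ := exists_almost 0 one_pos le_rfl
    have hv : v ∈ LinearMap.ker (f : S →ₗ[ℝ] ℝ) := by rw [this]; trivial
    have : f v = 0 := by simpa using hv
    linarith
  exact (hcl.isNowhereDense_iff.2 hint).isMeagre

end

end Pool.Agent.L7h17.Luc
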